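import Pool.Agent.V11230.TD6

/-!
# Edge deletion to bounded component size is W[1]-hard for the number of deletions

A polynomial-time reduction from Clique, where the parameter grows from `t` to `3 t²`.  The vertices
of the clique are the rows and the columns of a grid tiling instance with `t` rows and columns.  The
graph has two large stars for each cell and three long caterpillars (arcs) that join stars: one in
each cell, and one to the next cell of the row and of the column, cyclically.  Each arc has to be
cut, since two stars together are too large, so each arc is cut exactly once.  The position of the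
cut is the value that the arc transports, and only the positions of the allowed values can be used.
The bound on the sizes of the components gives an inequality for each star; their sum over the
cyclic grid is an equality, so the values are constant on the rows and on the columns.
-/

set_option autoImplicit false

namespace Pool.Agent.Results.MP_613513_lc.EdgeDeletionW1Hard

open Pool.Agent.NPC Pool.Agent.V11230.TD Pool.Agent.NPC.V11230.TDP Pool.Agent.H622R2

/-- the graph of an instance: one vertex for each token, and the listed edges -/
def graph (I : Inst) : SimpleGraph (Fin I.1.length) := LG I.1.length I.2.1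

/-- at most `k` edges can be deleted from the graph such that each component has at most `h`
vertices -/
def Solvable (I : Inst) : Prop := TFree (graph I) I.2.2.1 I.2.2.2

/-- the listed edges are pairs of different vertices -/
def Proper (I : Inst) : Prop := ∀ e ∈ I.2.1, (e.1 < I.1.length ∧ e.2 < I.1.length) ∧ e.1 ≠ e.2

theorem proper_L (P : Par) : ∀ e ∈ P.L, (e.1 < P.n ∧ e.2 < P.n) ∧ e.1 ≠ e.2 := by
  rintro ⟨a, b⟩ he
  obtain ⟨i, hi, j, hj, h⟩ := Par.mem_L.1 he
  rcases h with ⟨s, hs, rfl, rfl⟩ | ⟨s, hs, rfl, rfl⟩ | ⟨κ, hκ, p, hp, rfl, rfl⟩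
  · have hW : P.Q + 2 * P.K + 1 ≤ P.W := by unfold Par.W; omega
    refine ⟨⟨Par.cd_lt (by omega) hi hj (by omega), Par.cd_lt (by omega) hi hj (by omega)⟩, ?_⟩
    intro h
    have := (Par.cd_inj hi hj (by omega) hi hj (by omega) h).2.2.2
    omega
  · have hW : 5 * P.Q + 2 * P.K + 1 ≤ P.W := by unfold Par.W; omega
    refine ⟨⟨Par.cd_lt (by omega) hi hj (by omega), Par.cd_lt (by omega) hi hj (by omega)⟩, ?_⟩
    intro h
    have := (Par.cd_inj hi hj (by omega) hi hj (by omega) h).2.2.2
    omega
  · have hA : P.Arc κ i j := ⟨hκ, hi, hj⟩
    have n1 := Par.nx_spec (P := P) (κ := κ) (i := i) (j := j) hp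
    have n2 := Par.nx_le_T1 (P := P) (κ := κ) (i := i) (j := j) hp
    refine ⟨⟨Par.vx_lt hA (by omega), Par.vx_lt hA n2⟩, ?_⟩
    intro h
    have := Par.vx_same hA (by omega) n2 h
    omega

theorem tfree_congr {m n : ℕ} (h : m = n) (L : List (ℕ × ℕ)) (k b : ℕ) :
    TFree (LG m L) k b ↔ TFree (LG n L) k b := by
  subst h
  exact Iff.rfl

/-- **Main theorem.** There is a polynomial-time function that maps each pair of a graph (given by
an adjacency matrix) and a number `t ≥ 1` to an instance `(G, k, h)` with `1 ≤ k ≤ 3 t²` and
`1 ≤ h` such that at most `k` edges of `G` can be deleted to get components with at most `h`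
vertices if and only if the given graph has a clique of size `t`. -/
theorem result : ∃ f : List Bool → List Bool, PolyTime f ∧
    ∀ (A : List (List Bool)) (t : ℕ), 1 ≤ t → ∃ I : Inst, f (bits (A, t)) = bits I ∧ Proper I ∧
      (1 ≤ I.2.2.1 ∧ I.2.2.1 ≤ 3 * t ^ 2) ∧ 1 ≤ I.2.2.2 ∧
        (Solvable I ↔ ∃ C : Finset (Fin A.length), (matGraph A).IsNClique t C) := by
  refine ⟨red, polyTime_red, fun A t ht => ⟨inst (A, t), red_bits _, ?_⟩⟩
  by_cases h : t ≤ A.length
  · have e : inst (A, t) = pinst (cp A t) := by
      unfold inst
      rw [if_pos h, Nat.min_eq_left h]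
    rw [e]
    refine ⟨?_, ?_, ?_, ?_⟩
    · unfold Proper pinst
      rw [List.length_replicate]
      exact proper_L _
    · change 1 ≤ 3 * (t * t) ∧ 3 * (t * t) ≤ 3 * t ^ 2
      have : 1 ≤ t * t := Nat.mul_pos ht ht
      rw [sq]
      omega
    · change 1 ≤ (cp A t).h
      unfold Par.h
      omega
    · rw [← gt_iff, ← Par.tfree_iff (P := cp A t) ht]
      exact tfree_congr List.length_replicate _ _ _
  · have e : inst (A, t) = noInst := by
      unfold inst
      rw [if_neg h]
    rw [e]
    refine ⟨?_, ?_, le_rfl, ?_⟩
    · unfold Proper noInst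
      simp
    · change 1 ≤ 1 ∧ 1 ≤ 3 * t ^ 2
      have : 1 ≤ t ^ 2 := Nat.one_le_pow _ _ ht
      omega
    · refine ⟨fun h' => absurd h' ?_, ?_⟩
      · exact no_noInst
      · rintro ⟨C, hC⟩
        exfalso
        have h1 := Finset.card_le_univ C
        rw [hC.card_eq, Fintype.card_fin] at h1
        exact h h1

end Pool.Agent.Results.MP_613513_lc.EdgeDeletionW1Hard
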